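import Pool.Agent.RelU.Targets
import Pool.Agent.RelY.Core
import Pool.Agent.RelQ.Defs

/-!
# An oracle relative to which `UP ∩ coUP` is not null

For every word `x` and every `κ` there is a fair coin, the sign of `x`. The signed word `x c` (`c` a bit) has
a key if `c` is the sign of `x`; the key is unique, its bits are fair coins. (The simple case which
completes the table of Pool.Agent.RelU and Pool.Agent.RelY; there are no stages and no supergales.)
-/

set_option autoImplicit false

namespace Pool.Agent.RelZ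

open MeasureTheory Set
open scoped ENNReal
open Pool.Agent.RelM (Lang Instr Cfg step run Halts Decides E1 E2 NP pair triple binVal outVal
  Approx IsDensity str pre IsNullCover Null1 Null2 wq sq0 sq1 Asks hq code qb)
open Pool.Agent.RelO (lev)
open Pool.Agent.RelS (Z Rl orcV orc acc Idx Om Dep)
open Pool.Agent.RelU (coin key)
open Pool.Agent.RelY (sgn Hl)
open Pool.Agent.RelT (Fast)

/-- The world. -/
def zo (ω : Om) : Z := fun κ x y => sgn ω κ x && decide (y = key ω κ x)

/-- The oracle. -/
noncomputable def oo (ω : Om) : Lang := orc (fun _ => false) (zo ω)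

/-- The pairs visible to a gambler who bets on the sign of the word number `t`. -/
def SS (κ t : ℕ) : ℕ → List Bool → Prop := fun κ' x => lev κ' x < lev κ (str t)

/-- The oracle in which only these pairs are visible. -/
noncomputable def ov (κ t : ℕ) (ω : Om) : Lang := orcV (SS κ t) (fun _ => false) (zo ω)

/-- The coins visible to a gambler who bets on the sign of the word number `t`: the signs of the
earlier words, and the coins of the cheap pairs. -/
def Vis (κ t : ℕ) : Set Idx :=
  {a | a.2.2.1 = [] ∧ ((a.1 = κ ∧ a.2.2.2 = 0 ∧ ∃ s < t, a.2.1 = str s) ∨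
    (lev a.1 a.2.1 < lev κ (str t) ∧ a.2.2.2 ≤ lev a.1 a.2.1))}

/-! ## The targets of the jobs

`RelU/MEAS.lean` contains the lemmas on the fair coins (`indep`, `coin_cyl`, `coin_one`, `mixp`, ..); the measure
is that of RelU. Prove `theorem p_X : T_X` in `Pool/Agent/RelZ/P_X.lean`, namespace `Pool.Agent.RelZ`. -/

/-- **RLZ** (10 min). The key has the length `lev κ x`. -/
def T_RLZ : Prop := ∀ (ω : Om) (κ : ℕ) (x : List Bool), Rl (zo ω) κ x = sgn ω κ x

/-- **HIT** (40 min). Edit of `RelU/P_HIT.lean`, simpler: no stages, and the part `11` of the oracle is empty. A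
hidden pair κ', x' has `lev κ (str t) ≤ lev κ' x'`; `zo ω κ' x' y = true` implies `key ω κ' x' = y`, an event of
probability `2⁻¹ ^ lev κ' x'` which depends on the coins `(κ', x', [], i + 1)`, none of them in `Vis κ t`. `ov κ t`
depends only on `Vis κ t`: the sign coin `(κ', x.dropLast, [], 0)` of a visible pair has a lower level
(`levmono`). -/
def T_HIT : Prop := ∀ (κ t : ℕ) (Pr : List Instr) (X : Om → List Bool) (τ : ℕ),
  Dep (Vis κ t) X → (∀ ω, (X ω).length + τ < 2 ^ lev κ (str t)) →
  coin {ω | ∃ s ≤ τ, run (oo ω) Pr (X ω) s ≠ run (ov κ t ω) Pr (X ω) s}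
    ≤ τ * (2⁻¹ : ℝ≥0∞) ^ (lev κ (str t) / 2)

/-- **FAIR** (15 min). Edit of `RelU/P_FAIR.lean` or `RelY/P_FAIR.lean`. -/
def T_FAIR : Prop := ∀ (κ t : ℕ) (H : Om → ℝ≥0∞) (b : Bool), Measurable H → Dep (Vis κ t) H →
  ∫⁻ ω in {ω | Hl κ ω (str t) = b}, H ω ∂coin = 2⁻¹ * ∫⁻ ω, H ω ∂coin

/-- **NONB** (40 min; from T_HIT, T_FAIR). Edit of `RelY/P_NONB.lean` or `RelU/P_NONB.lean`. -/
def T_NONB : Prop := ∀ (κ : ℕ) (Pr : List Instr) (T : ℕ → ℕ), Fast κ T →
  ∀ᵐ ω ∂coin, ¬ ∃ d : ℕ → List Bool → ℝ,
    IsNullCover d {Hl κ ω} ∧ Approx (oo ω) Pr T d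

/-- **UPA** (40 min). `RelB/P_NPA.lean` with uniqueness: the machine of `p_NPA` accepts the witness `y` of `x` iff
`orc G z (wq κ (x ++ c) y) = true`, that is iff `y` is a key of `x ++ c`. -/
def T_UPA : Prop := ∀ (G : Lang) (z : Z) (κ : ℕ) (c : List Bool),
  (∀ x y y' : List Bool, z κ x y = true → z κ x y' = true → y = y') →
  (fun x => Rl z κ (x ++ c)) ∈ Pool.Agent.RelQ.UP (orc G z)

end Pool.Agent.RelZ
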