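import Pool.Agent.RelZ.Core
import Pool.Agent.RelU.MEAS
import Pool.Agent.RelM.LOC

/-!
# The sign of a word is a fair hidden coin
-/

set_option autoImplicit false

namespace Pool.Agent.RelZ

open MeasureTheory Set
open scoped ENNReal
open Pool.Agent.RelM (str)
open Pool.Agent.RelO (lev)
open Pool.Agent.RelS (Z Rl Idx Om Dep fd)
open Pool.Agent.RelU (coin indep coin_one)
open Pool.Agent.RelY (Hl)

theorem p_FAIR : T_FAIR := by
  intro κ t H b hH dH
  have hs : {ω | Hl κ ω (str t) = b} = {ω : Om | ω (κ, str t, [], 0) = b} := rfl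
  have hm : MeasurableSet {ω : Om | ω (κ, str t, [], 0) = b} := by
    refine fd (Set.finite_singleton ((κ, str t, [], 0) : Idx)) fun ω ω' h => ?_
    have h2 : ω (κ, str t, [], 0) = ω' (κ, str t, [], 0) := h _ rfl
    show ω (κ, str t, [], 0) = b ↔ ω' (κ, str t, [], 0) = b
    rw [h2]
  rw [hs, ← lintegral_indicator hm]
  have h1 : ∀ ω : Om, ({ω : Om | ω (κ, str t, [], 0) = b}).indicator H ω =
      ({ω : Om | ω (κ, str t, [], 0) = b}).indicator (1 : Om → ℝ≥0∞) ω * H ω := by
    intro ω
    by_cases h : ω (κ, str t, [], 0) = b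
    · rw [Set.indicator_of_mem (show ω ∈ {ω : Om | ω (κ, str t, [], 0) = b} from h),
        Set.indicator_of_mem (show ω ∈ {ω : Om | ω (κ, str t, [], 0) = b} from h),
        Pi.one_apply, one_mul]
    · rw [Set.indicator_of_notMem (show ω ∉ {ω : Om | ω (κ, str t, [], 0) = b} from h),
        Set.indicator_of_notMem (show ω ∉ {ω : Om | ω (κ, str t, [], 0) = b} from h),
        zero_mul]
  simp only [h1]
  have dF : Dep ({(κ, str t, [], 0)} : Set Idx)
      (({ω : Om | ω (κ, str t, [], 0) = b}).indicator (1 : Om → ℝ≥0∞)) := by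
    intro ω ω' h
    have h2 : ω (κ, str t, [], 0) = ω' (κ, str t, [], 0) := h _ rfl
    by_cases h3 : ω (κ, str t, [], 0) = b
    · rw [Set.indicator_of_mem (show ω ∈ {ω : Om | ω (κ, str t, [], 0) = b} from h3),
        Set.indicator_of_mem (show ω' ∈ {ω : Om | ω (κ, str t, [], 0) = b} from
          h2.symm.trans h3)]
      rfl
    · rw [Set.indicator_of_notMem (show ω ∉ {ω : Om | ω (κ, str t, [], 0) = b} from h3),
        Set.indicator_of_notMem (show ω' ∉ {ω : Om | ω (κ, str t, [], 0) = b} from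
          fun h4 => h3 (h2.trans h4))]
  have dG : Dep ({(κ, str t, [], 0)} : Set Idx)ᶜ H := by
    intro ω ω' h
    refine dH ω ω' fun a ha => h a ?_
    intro h2
    rw [Set.mem_singleton_iff] at h2
    subst h2
    obtain ⟨_, ⟨_, _, s, hs1, hs2⟩ | ⟨h3, _⟩⟩ := ha
    · have h4 : t = s := Pool.Agent.RelM.strinj hs2
      omega
    · exact lt_irrefl _ h3
  rw [indep (measurable_one.indicator hm) hH dF dG, lintegral_indicator_one hm, coin_one]

end Pool.Agent.RelZ
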