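import Pool.Agent.RelZ.Core
import Pool.Agent.RelB.P_NPA

/-!
# RELZ, block UPA: the verifier for words with an appended word is unambiguous
-/

set_option autoImplicit false

namespace Pool.Agent.RelZ

open Pool.Agent.RelM (Lang Instr Cfg step run Halts NP pair wq)
open Pool.Agent.RelO (lev levpow)
open Pool.Agent.RelS (Z Rl orc owq)

open Pool.Agent.RelB.NPA_ in
/-- **UPA** -/
theorem p_UPA : T_UPA := by
  intro G z κ c huniq
  refine ⟨prog κ c, (c.length + 1) * (κ + 2), 2 * c.length + κ + 8 + 4, ?_⟩
  intro x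
  have htime : tm κ c x ≤ (x.length + 2) ^ (2 * c.length + κ + 8 + 4) := time_le _ _
  have hhalt : ∀ y, Halts (orc G z) (prog κ c) (pair x y) (tm κ c x) := by
    intro y
    unfold Halts
    rw [prog_length]
    by_cases h : orc G z (wq κ (x ++ c) y) = true
    · rw [yes _ κ c x y h]
    · rw [no _ κ c x y h]
  have hrun : ∀ y, run (orc G z) (prog κ c) (pair x y)
      ((x.length + 2) ^ (2 * c.length + κ + 8 + 4)) =
      run (orc G z) (prog κ c) (pair x y) (tm κ c x) :=
    fun y => Pool.Agent.RelM.stay _ _ _ _ _ (hhalt y) htime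
  have hyes : ∀ y, (run (orc G z) (prog κ c) (pair x y) (tm κ c x)).st 1 = [true] ↔
      orc G z (wq κ (x ++ c) y) = true := by
    intro y
    constructor
    · intro h
      by_contra hno
      rw [no _ κ c x y hno] at h
      have h' : ([] : List Bool) = [true] := h
      simp at h'
    · intro h
      rw [yes _ κ c x y h]
      rfl
  refine ⟨?_, ?_, ?_⟩
  · intro y _
    have := hhalt y
    unfold Halts at this ⊢
    rw [hrun y]
    exact this
  · have hR : Rl z κ (x ++ c) = true ↔
        ∃ y : List Bool, y.length = lev κ (x ++ c) ∧ z κ (x ++ c) y = true := by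
      simp [Rl]
    rw [hR]
    constructor
    · rintro ⟨y, hy1, hy2⟩
      refine ⟨y, ?_, ?_⟩
      · rw [hy1]
        refine (levpow κ (x ++ c)).trans ?_
        rw [List.length_append]
        exact len_le _ _ _
      · rw [hrun, hyes]
        exact (owq _ G z κ (x ++ c) _).2 ⟨trivial, hy1, hy2⟩
    · rintro ⟨y, -, hy⟩
      rw [hrun, hyes] at hy
      exact ⟨y, ((owq _ G z κ (x ++ c) y).1 hy).2⟩
  · intro y y' _ _ hy hy'
    rw [hrun, hyes] at hy hy'
    exact huniq (x ++ c) y y' ((owq _ G z κ (x ++ c) y).1 hy).2.2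
      ((owq _ G z κ (x ++ c) y').1 hy').2.2

end Pool.Agent.RelZ
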