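import Pool.Agent.RelZ.MAIN
import Pool.Agent.RelZ.P_HIT
import Pool.Agent.RelZ.P_FAIR
import Pool.Agent.RelZ.P_UPA
import Pool.Agent.RelY.FIN
import Pool.Agent.RelQ.MAIN
import Pool.Agent.RelQ.P_GDE
import Pool.Agent.RelQ.P_PHF
import Pool.Agent.RelQ.P_THN

/-!
# The four types for `UP` and `NP ∩ coNP`
-/

set_option autoImplicit false

namespace Pool.Agent.RelZ

open Pool.Agent.RelM (Lang NP E1 E2 Null1 Null2)
open Pool.Agent.RelO (GaleNull1 GaleNull2)
open Pool.Agent.RelQ (UP PH Sig gale1_mono gale2_mono)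
open Pool.Agent.RelU (NPco)

/-- `X ∩ E` and `X ∩ E_2` are not null. -/
def Large (O : Lang) (X : Set Lang) : Prop := ¬ Null1 O (X ∩ E1 O) ∧ ¬ Null2 O (X ∩ E2 O)

/-- `X` has dimension `0`. -/
def Small (O : Lang) (X : Set Lang) : Prop :=
  ∀ s : ℝ, 0 < s → GaleNull1 s O X ∧ GaleNull2 s O X

theorem small_mono {O : Lang} {X Y : Set Lang} (h : X ⊆ Y) (hY : Small O Y) : Small O X :=
  fun s hs => ⟨gale1_mono h (hY s hs).1, gale2_mono h (hY s hs).2⟩

theorem null1_mono {O : Lang} {X Y : Set Lang} (h : X ⊆ Y) (hY : Null1 O Y) : Null1 O X := by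
  obtain ⟨d, hd, P, c, hP⟩ := hY
  exact ⟨d, fun k => ⟨(hd k).1, (hd k).2.1, fun A hA => (hd k).2.2 A (h hA)⟩, P, c, hP⟩

theorem null2_mono {O : Lang} {X Y : Set Lang} (h : X ⊆ Y) (hY : Null2 O Y) : Null2 O X := by
  obtain ⟨d, hd, P, c, hP⟩ := hY
  exact ⟨d, fun k => ⟨(hd k).1, (hd k).2.1, fun A hA => (hd k).2.2 A (h hA)⟩, P, c, hP⟩

theorem large_mono {O : Lang} {X Y : Set Lang} (h : X ⊆ Y) (hX : Large O X) : Large O Y :=
  ⟨fun hY => hX.1 (null1_mono (Set.inter_subset_inter_left _ h) hY),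
    fun hY => hX.2 (null2_mono (Set.inter_subset_inter_left _ h) hY)⟩

theorem up_np (O : Lang) : UP O ⊆ NP O := by
  rintro A ⟨P, j, k, h⟩
  exact ⟨P, j, k, fun x => ⟨(h x).1, (h x).2.1⟩⟩

theorem npco_np (O : Lang) : NPco O ⊆ NP O := Set.inter_subset_left

theorem upco_npco (O : Lang) : {A | A ∈ UP O ∧ (fun x => !A x) ∈ UP O} ⊆ NPco O :=
  fun _ h => ⟨up_np O h.1, up_np O h.2⟩

theorem upco_up (O : Lang) : {A | A ∈ UP O ∧ (fun x => !A x) ∈ UP O} ⊆ UP O := fun _ h => h.1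

/-- All classes are small. -/
theorem fin_small : ∃ O : Lang, Small O (NP O) := by
  obtain ⟨O, h, -, -⟩ := Pool.Agent.RelQ.main_of Pool.Agent.RelQ.p_THN Pool.Agent.RelQ.p_PHF
    Pool.Agent.RelQ.p_GDE Pool.Agent.RelQ.p_UPG (fun _ _ => fun _ => false)
    (fun _ => ⟨0, fun _ _ _ _ => rfl⟩)
  refine ⟨O, small_mono ?_ h⟩
  intro A hA
  exact Or.inl (Set.mem_iUnion.2 ⟨0, hA⟩)

/-- All classes are large. -/
theorem fin_large : ∃ O : Lang, Large O {A | A ∈ UP O ∧ (fun x => !A x) ∈ UP O} :=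
  main (p_NONB_of p_HIT p_FAIR) p_UPA

/-- The four types. -/
theorem types (p q : Prop) : ∃ O : Lang,
    (p → Large O (UP O)) ∧ (¬ p → Small O (UP O)) ∧
    (q → Large O (NPco O)) ∧ (¬ q → Small O (NPco O)) ∧
    (p → q → Large O {A | A ∈ UP O ∧ (fun x => !A x) ∈ UP O}) ∧
    (¬ p → ¬ q → Small O (NP O)) := by
  by_cases hp : p
  · by_cases hq : q
    · obtain ⟨O, h⟩ := fin_large
      exact ⟨O, fun _ => large_mono (upco_up O) h, fun h' => absurd hp h',
        fun _ => large_mono (upco_npco O) h, fun h' => absurd hq h', fun _ _ => h,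
        fun h' => absurd hp h'⟩
    · obtain ⟨O, h1, h2, h3⟩ := Pool.Agent.RelY.fin_u
      exact ⟨O, fun _ => ⟨h1, h2⟩, fun h' => absurd hp h', fun h' => absurd h' hq, fun _ => h3,
        fun _ h' => absurd h' hq, fun h' => absurd hp h'⟩
  · by_cases hq : q
    · obtain ⟨O, h1, h2, h3⟩ := Pool.Agent.RelY.fin_y
      exact ⟨O, fun h' => absurd h' hp, fun _ => h3, fun _ => ⟨h1, h2⟩, fun h' => absurd hq h',
        fun h' => absurd h' hp, fun _ h' => absurd hq h'⟩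
    · obtain ⟨O, h⟩ := fin_small
      exact ⟨O, fun h' => absurd h' hp, fun _ => small_mono (up_np O) h,
        fun h' => absurd h' hq, fun _ => small_mono (npco_np O) h, fun h' => absurd h' hp,
        fun _ _ => h⟩

end Pool.Agent.RelZ
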