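import Pool.Agent.RelZ.P_RLZ
import Pool.Agent.RelZ.P_NONB
import Pool.Agent.RelC.MAIN

/-!
# RelZ: the theorem
-/

set_option autoImplicit false

namespace Pool.Agent.RelZ

open MeasureTheory Set
open Pool.Agent.RelM (Lang Instr Decides E1 E2 NP Approx IsNullCover Null1 Null2)
open Pool.Agent.RelS (Rl orc Om)
open Pool.Agent.RelT (Fast)
open Pool.Agent.RelU (coin)
open Pool.Agent.RelY (Hl)
open Pool.Agent.RelQ (UP)

/-- An oracle relative to which `UP ∩ coUP` is not null. -/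
theorem main (hNB : T_NONB) (hUPA : T_UPA) : ∃ O : Lang,
    ¬ Null1 O ({A | A ∈ UP O ∧ (fun x => !A x) ∈ UP O} ∩ E1 O) ∧
      ¬ Null2 O ({A | A ∈ UP O ∧ (fun x => !A x) ∈ UP O} ∩ E2 O) := by
  have a1 : ∀ᵐ ω ∂coin, ∀ (κ c : ℕ) (Pr : List Instr),
      Fast κ (fun l => (l + 2) ^ c) →
      ¬ ∃ d : ℕ → List Bool → ℝ, IsNullCover d {Hl κ ω} ∧
        Approx (oo ω) Pr (fun l => (l + 2) ^ c) d := by
    refine ae_all_iff.2 fun κ => ae_all_iff.2 fun c => ae_all_iff.2 fun Pr => ?_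
    by_cases h2 : Fast κ (fun l => (l + 2) ^ c)
    · filter_upwards [hNB κ Pr _ h2] with ω hω _
      exact hω
    · exact Filter.Eventually.of_forall fun ω h => (h2 h).elim
  have a2 : ∀ᵐ ω ∂coin, ∀ (κ c : ℕ) (Pr : List Instr),
      Fast κ (fun l => 2 ^ ((Nat.log 2 l + 2) ^ c)) →
      ¬ ∃ d : ℕ → List Bool → ℝ, IsNullCover d {Hl κ ω} ∧
        Approx (oo ω) Pr (fun l => 2 ^ ((Nat.log 2 l + 2) ^ c)) d := by
    refine ae_all_iff.2 fun κ => ae_all_iff.2 fun c => ae_all_iff.2 fun Pr => ?_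
    by_cases h2 : Fast κ (fun l => 2 ^ ((Nat.log 2 l + 2) ^ c))
    · filter_upwards [hNB κ Pr _ h2] with ω hω _
      exact hω
    · exact Filter.Eventually.of_forall fun ω h => (h2 h).elim
  obtain ⟨ω, h1, h2⟩ := (a1.and a2).exists
  exact ⟨oo ω, Pool.Agent.RelC.MAIN_.not_null (L := fun κ => Hl κ ω)
    (fun κ => hl_up hUPA _ ω κ) (fun κ hκ => (hl_e _ ω κ).1 hκ)
    (fun κ hκ => (hl_e _ ω κ).2 hκ) h1 h2⟩

end Pool.Agent.RelZ
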